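import Pool.Agent.Y734.R.Stms
import Pool.Agent.Y734.M.SUN.Main
import Pool.Agent.Y734.M.FINS.Main

/-!
# Project Y734/R, jobs SUR and PTS (helper514): norms of `S`-units; from coordinates to points
-/

set_option autoImplicit false

namespace Pool.Agent.Y734.R.PTS

open Pool.Agent.Y734.M Pool.Agent.Y734.R NumberField
open Pool.Agent.Y734.M.FINS (ne02 ne12 ne20 dt_self W nw_eq cr_eq W_map)

theorem finite_kL (k L : Type) [Field k] [NumberField k] [Field L] [NumberField L]
    [Algebra k L] : FiniteDimensional k L := FiniteDimensional.right ℚ k L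

/-- the norm of an element which is integral after multiplication by a power of the primes -/
theorem int_norm {k L : Type} [Field k] [NumberField k] [Field L] [NumberField L] [Algebra k L]
    (S : Finset ℕ) (m : ℕ) (a : L) (ha : IsIntegral ℤ ((∏ p ∈ S, (p : L)) ^ m * a)) :
    IsIntegral ℤ ((∏ p ∈ S, (p : k)) ^ (Module.finrank k L * m) * Algebra.norm k a) := by
  have : FiniteDimensional k L := finite_kL k L
  have h1 : IsIntegral ℤ (Algebra.norm k ((∏ p ∈ S, (p : L)) ^ m * a)) :=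
    Algebra.isIntegral_norm k ha
  have h2 : (∏ p ∈ S, (p : L)) ^ m = algebraMap k L ((∏ p ∈ S, (p : k)) ^ m) := by
    rw [map_pow, map_prod]
    simp only [map_natCast]
  rw [map_mul, h2, Algebra.norm_algebraMap, ← pow_mul, mul_comm m] at h1
  exact h1

theorem sur : SurStmt := by
  intro k L _ _ _ _ _ S a ha
  have : FiniteDimensional k L := finite_kL k L
  obtain ⟨h0, m, h1, h2⟩ := ha
  refine ⟨Algebra.norm_ne_zero_iff.2 h0, Module.finrank k L * m, int_norm S m a h1, ?_⟩
  have h3 : (Algebra.norm k a)⁻¹ = Algebra.norm k a⁻¹ := by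
    refine (eq_inv_of_mul_eq_one_left ?_).symm
    rw [← map_mul, inv_mul_cancel₀ h0, map_one]
  rw [h3]
  exact int_norm S m a⁻¹ h2

/-- the coordinates with a value at infinity -/
def Xy {K : Type} [Field K] {n : ℕ} (y : Fin (n + 2) → K) : Fin (n + 3) → K :=
  Fin.cases 0 (fun i => - y i)

theorem W_congr {K : Type} [Field K] {n : ℕ} (x x' : Fin (n + 3) → K)
    (h : ∀ i, i ≠ 0 → x i = x' i) (i j : Fin (n + 3)) : W x i j = W x' i j := by
  unfold W
  split_ifs with hi hj hj
  · rfl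
  · rfl
  · rfl
  · rw [h i hi, h j hj]

theorem pts : PtsStmt := by
  intro k _ _ r n S hX
  have hfin : Set.Finite (⋃ r' ∈ Finset.Icc 1 r,
      (fun (y : Fin (n + 2) → ℂ) => fun (i j k l : Fin (n + 3)) =>
        W (Xy y) i j * W (Xy y) k l / (W (Xy y) i k * W (Xy y) j l)) ''
          Xs k r' (n + 2) S 1 0) := by
    refine Set.Finite.biUnion (Finset.Icc 1 r).finite_toSet fun r' hr' => ?_
    have h1 := Finset.mem_Icc.1 (Finset.mem_coe.1 hr')
    exact (hX r' (by omega) h1.2).image _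
  refine hfin.subset ?_
  rintro c ⟨L, _, _, _, P, φ, hr, hP, rfl⟩
  have : FiniteDimensional k L := finite_kL k L
  have hpos : 0 < Module.finrank k L := Module.finrank_pos
  rw [Set.mem_iUnion₂]
  refine ⟨Module.finrank k L, Finset.mem_Icc.2 ⟨hpos, hr⟩, ?_⟩
  have hN : Nd P := hP.1
  have h10 : (1 : Fin (n + 3)) ≠ 0 := by simp
  have h20 : (2 : Fin (n + 3)) ≠ 0 := ne20
  have h22 : nw P 2 2 = 0 := by simp [nw, dt_self]
  have h21 : nw P 2 1 = -1 := by
    rw [Pool.Agent.Y734.M.SUN.nw_swap, Pool.Agent.Y734.M.SUN.nw_one_two hN]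
  refine ⟨fun i => φ (-nw P 2 i.succ), ⟨L, inferInstance, inferInstance, inferInstance, fun i => -nw P 2 i.succ, φ, rfl, ?_, ?_, ?_,
    rfl⟩, ?_⟩
  · show -nw P 2 (Fin.succ 1) = 0
    rw [Fin.succ_one_eq_two, h22, neg_zero]
  · show -nw P 2 (Fin.succ 0) = 1
    rw [Fin.succ_zero_eq_one, h21, neg_neg]
  · intro i j hij
    have e : -nw P 2 i.succ - -nw P 2 j.succ = nw P i.succ j.succ := by
      rw [nw_eq P hN i.succ j.succ]
      unfold W
      rw [if_neg (Fin.succ_ne_zero i), if_neg (Fin.succ_ne_zero j)]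
      ring
    show SU S (-nw P 2 i.succ - -nw P 2 j.succ)
    rw [e]
    exact Pool.Agent.Y734.M.SUN.SU_nw hP _ _ (fun h => hij (Fin.succ_injective _ h))
  · funext i j k l
    have hW : ∀ i j : Fin (n + 3), W (Xy fun i => φ (-nw P 2 i.succ)) i j =
        W (fun i => φ (nw P 2 i)) i j := by
      refine W_congr _ _ fun i hi => ?_
      obtain ⟨i', rfl⟩ := Fin.exists_succ_eq.2 hi
      show -φ (-nw P 2 i'.succ) = φ (nw P 2 i'.succ)
      rw [map_neg, neg_neg]
    simp only []
    rw [hW, hW, hW, hW, cr_eq P hN, nw_eq P hN i j, nw_eq P hN k l, nw_eq P hN i k,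
      nw_eq P hN j l, map_div₀, map_mul, map_mul, W_map, W_map, W_map, W_map]

end Pool.Agent.Y734.R.PTS
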